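import Pool.Agent.H15.LE.Def
import Pool.Agent.H5.DF.Energy2
import Pool.Agent.H95.LBD.TreeB

/-!
PROJECT LE, block PW (MP_0d9ad5_pr). The algebra of summable functions on `Z^d`: convolution, the Neumann series in a
weighted norm (Brandenburg trick), inverse by a parametrix.

`cr f g x = sum'_y f y g (x - y)` (H15/LE/Def). Weighted bound `Dw w f M`: `|f x| w x <= M`. If
`w (x+y) <= C (w x + w y)` then `|f*g|_w <= C (|f|_w |g|_1 + |g|_w |f|_1)`. Halving gives
`|f^(*n)|_w <= n^k q^(n-1) |f|_w` if `|f|_1 <= q` and `2 C <= (3/2)^k`; so the Neumann series is bounded in the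
weighted norm as soon as `q < 1`, whatever `C` is.
-/

namespace H84PW

open H5DF H95LBD H95LE H15LE MeasureTheory

variable {d : ℕ}

/-- The change of variables `(y, x) ↦ (y, x - y)`. -/
def shE : (V d × V d) ≃ (V d × V d) where
  toFun q := (q.1, q.2 - q.1)
  invFun q := (q.1, q.2 + q.1)
  left_inv q := by simp
  right_inv q := by simp

lemma dbl {f g : V d → ℝ} (hf : Summable f) (hg : Summable g) :
    Summable fun q : V d × V d => f q.1 * g (q.2 - q.1) := by
  have h := summable_mul_of_summable_norm hf.norm hg.norm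
  exact (shE.summable_iff (f := fun q : V d × V d => f q.1 * g q.2)).2 h

lemma cr_term {f g : V d → ℝ} (hf : Summable f) (hg : Summable g) (x : V d) :
    Summable fun y => f y * g (x - y) :=
  (dbl hf hg).prod_symm.prod_factor x

lemma cr_sum {f g : V d → ℝ} (hf : Summable f) (hg : Summable g) : Summable (cr f g) :=
  (dbl hf hg).prod_symm.prod

lemma cr_abs_le {f g : V d → ℝ} (hf : Summable f) (hg : Summable g) (x : V d) :
    |cr f g x| ≤ cr (fun y => |f y|) (fun y => |g y|) x := by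
  unfold cr
  have h := (cr_term hf hg x).norm
  refine (norm_tsum_le_tsum_norm h).trans (le_of_eq ?_)
  refine tsum_congr fun y => ?_
  rw [Real.norm_eq_abs, abs_mul]

lemma cr_tot {f g : V d → ℝ} (hf : Summable f) (hg : Summable g) :
    ∑' x, cr f g x = (∑' x, f x) * ∑' x, g x := by
  unfold cr
  have h := dbl hf hg
  have h' : Summable fun q : V d × V d => f q.2 * g (q.1 - q.2) := h.prod_symm
  have h2 : ∑' q : V d × V d, f q.2 * g (q.1 - q.2) = ∑' q : V d × V d, f q.1 * g (q.2 - q.1) :=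
    (Equiv.prodComm (V d) (V d)).tsum_eq (fun q : V d × V d => f q.1 * g (q.2 - q.1))
  rw [← h'.tsum_prod, ← tsum_mul_right, h2, h.tsum_prod]
  refine tsum_congr fun y => ?_
  change ∑' x, f y * g (x - y) = _
  rw [tsum_mul_left]
  congr 1
  exact (Equiv.subRight y).tsum_eq g

lemma cr_l1 {f g : V d → ℝ} (hf : Summable f) (hg : Summable g) :
    ∑' x, |cr f g x| ≤ (∑' x, |f x|) * ∑' x, |g x| := by
  rw [← cr_tot hf.abs hg.abs]
  exact Summable.tsum_le_tsum (cr_abs_le hf hg) (cr_sum hf hg).abs (cr_sum hf.abs hg.abs)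

lemma cr_comm (f g : V d → ℝ) : cr f g = cr g f := by
  funext x
  unfold cr
  rw [← (Equiv.subLeft x).tsum_eq]
  refine tsum_congr fun y => ?_
  rw [Equiv.subLeft_apply, sub_sub_cancel, mul_comm]

lemma bdd_of_sum {f : V d → ℝ} (hf : Summable f) (x : V d) : |f x| ≤ ∑' y, |f y| :=
  hf.abs.le_tsum x fun _ _ => abs_nonneg _

lemma cr_assoc {f g h : V d → ℝ} (hf : Summable f) (hg : Summable g) (hh : Summable h) :
    cr (cr f g) h = cr f (cr g h) := by
  funext x
  unfold cr
  have e1 : ∀ y, (∑' z, f z * g (y - z)) * h (x - y) = ∑' z, f z * g (y - z) * h (x - y) :=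
    fun y => tsum_mul_right.symm
  have e2 : ∀ z, f z * ∑' y, g y * h (x - z - y) = ∑' y, f z * g (y - z) * h (x - y) := by
    intro z
    rw [← tsum_mul_left, ← (Equiv.subRight z).tsum_eq (fun y => f z * (g y * h (x - z - y)))]
    refine tsum_congr fun y => ?_
    rw [Equiv.subRight_apply, sub_sub_sub_cancel_right, mul_assoc]
  simp_rw [e1, e2]
  refine Summable.tsum_comm ?_
  have h0 : Summable fun q : V d × V d => f q.1 * g (q.2 - q.1) := dbl hf hg
  have h1 := h0.norm.mul_right (∑' y, |h y|)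
  refine Summable.of_norm_bounded h1 ?_
  rintro ⟨y, z⟩
  simp only [Function.uncurry_apply_pair, norm_mul, Real.norm_eq_abs]
  exact mul_le_mul_of_nonneg_left (bdd_of_sum hh _) (mul_nonneg (abs_nonneg _) (abs_nonneg _))

lemma cr_add {f g h : V d → ℝ} (hf : Summable f) (hg : Summable g) (hh : Summable h) :
    cr f (fun x => g x + h x) = fun x => cr f g x + cr f h x := by
  funext x
  unfold cr
  rw [← (cr_term hf hg x).tsum_add (cr_term hf hh x)]
  exact tsum_congr fun y => mul_add _ _ _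

lemma cr_sub {f g h : V d → ℝ} (hf : Summable f) (hg : Summable g) (hh : Summable h) :
    cr f (fun x => g x - h x) = fun x => cr f g x - cr f h x := by
  funext x
  unfold cr
  rw [← (cr_term hf hg x).tsum_sub (cr_term hf hh x)]
  exact tsum_congr fun y => mul_sub _ _ _

/-- The unit of the algebra. -/
noncomputable def de (x : V d) : ℝ := if x = 0 then 1 else 0

lemma de_sum : Summable (de : V d → ℝ) := by
  refine summable_of_ne_finset_zero (s := {0}) fun x hx => ?_
  rw [de, if_neg]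
  simpa using hx

lemma cr_de (f : V d → ℝ) : cr f de = f := by
  funext x
  unfold cr de
  rw [tsum_eq_single x]
  · simp
  · intro y hy
    rw [if_neg, mul_zero]
    intro h
    exact hy (sub_eq_zero.1 h).symm

lemma de_cr (f : V d → ℝ) : cr de f = f := by
  rw [cr_comm, cr_de]

/-- The powers `f^(*(n+1))`. -/
noncomputable def pw (f : V d → ℝ) : ℕ → V d → ℝ
  | 0 => f
  | n + 1 => cr f (pw f n)

lemma pw_sum {f : V d → ℝ} (hf : Summable f) (n : ℕ) : Summable (pw f n) := by
  induction n with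
  | zero => exact hf
  | succ n ih => exact cr_sum hf ih

lemma pw_l1 {f : V d → ℝ} (hf : Summable f) {q : ℝ} (hq : ∑' x, |f x| ≤ q) (n : ℕ) :
    ∑' x, |pw f n x| ≤ q ^ (n + 1) := by
  have h0 : 0 ≤ ∑' x, |f x| := tsum_nonneg fun _ => abs_nonneg _
  induction n with
  | zero => simpa [pw] using hq
  | succ n ih =>
    refine (cr_l1 hf (pw_sum hf n)).trans ?_
    rw [pow_succ' q (n + 1)]
    exact mul_le_mul hq ih (tsum_nonneg fun _ => abs_nonneg _) (h0.trans hq)

lemma pw_add {f : V d → ℝ} (hf : Summable f) (m n : ℕ) :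
    cr (pw f m) (pw f n) = pw f (m + n + 1) := by
  induction m with
  | zero => rw [Nat.zero_add]; rfl
  | succ m ih =>
    change cr (cr f (pw f m)) (pw f n) = _
    rw [cr_assoc hf (pw_sum hf m) (pw_sum hf n), ih, show m + 1 + n + 1 = (m + n + 1) + 1 by ring]
    rfl

/-- Weighted bound. -/
def Dw (w f : V d → ℝ) (M : ℝ) : Prop := ∀ x, |f x| * w x ≤ M

lemma dw_mono {w f : V d → ℝ} {M M' : ℝ} (h : Dw w f M) (hM : M ≤ M') : Dw w f M' :=
  fun x => (h x).trans hM

lemma dw_cr {w : V d → ℝ} {C : ℝ} (hw0 : ∀ x, 0 ≤ w x)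
    (hw : ∀ x y, w (x + y) ≤ C * (w x + w y)) {f g : V d → ℝ} (hf : Summable f) (hg : Summable g)
    {M M' : ℝ} (hC : 0 ≤ C) (h1 : Dw w f M) (h2 : Dw w g M') :
    Dw w (cr f g) (C * (M * (∑' x, |g x|) + M' * ∑' x, |f x|)) := by
  intro x
  have hs1 : Summable fun y => M * |g (x - y)| :=
    (((Equiv.subLeft x).summable_iff (f := fun y => |g y|)).2 hg.abs).mul_left M
  have hs2 : Summable fun y => M' * |f y| := hf.abs.mul_left M'
  have hs3 := (cr_term hf.abs hg.abs x).mul_right (w x)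
  calc |cr f g x| * w x ≤ cr (fun y => |f y|) (fun y => |g y|) x * w x :=
        mul_le_mul_of_nonneg_right (cr_abs_le hf hg x) (hw0 x)
    _ = ∑' y, |f y| * |g (x - y)| * w x := tsum_mul_right.symm
    _ ≤ ∑' y, C * (M * |g (x - y)| + M' * |f y|) := by
        refine Summable.tsum_le_tsum (fun y => ?_) hs3 ((hs1.add hs2).mul_left C)
        have h3 : w x ≤ C * (w y + w (x - y)) := by
          have := hw y (x - y)
          rwa [add_sub_cancel] at this
        have h4 := h1 y
        have h5 := h2 (x - y)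
        have a1 := abs_nonneg (f y)
        have a2 := abs_nonneg (g (x - y))
        calc |f y| * |g (x - y)| * w x ≤ |f y| * |g (x - y)| * (C * (w y + w (x - y))) :=
              mul_le_mul_of_nonneg_left h3 (by positivity)
          _ = C * ((|f y| * w y) * |g (x - y)| + (|g (x - y)| * w (x - y)) * |f y|) := by ring
          _ ≤ _ := by gcongr
    _ = C * (M * (∑' x, |g x|) + M' * ∑' x, |f x|) := by
        rw [tsum_mul_left, hs1.tsum_add hs2, tsum_mul_left, tsum_mul_left]
        congr 3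
        exact (Equiv.subLeft x).tsum_eq (fun y => |g y|)

/-- The powers in the weighted norm. -/
theorem dw_pw {w : V d → ℝ} {C : ℝ} (hw0 : ∀ x, 0 ≤ w x)
    (hw : ∀ x y, w (x + y) ≤ C * (w x + w y)) (hC : 0 ≤ C) {k : ℕ} (hk : 2 * C ≤ (3 / 2) ^ k)
    {f : V d → ℝ} (hf : Summable f) {q M : ℝ} (hq : ∑' x, |f x| ≤ q) (hM : Dw w f M) (n : ℕ) :
    Dw w (pw f n) (((n : ℝ) + 1) ^ k * q ^ n * M) := by
  have hM0 : 0 ≤ M := le_trans (mul_nonneg (abs_nonneg _) (hw0 0)) (hM 0)
  have hq0 : 0 ≤ q := le_trans (tsum_nonneg fun _ => abs_nonneg _) hq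
  induction n using Nat.strong_induction_on with
  | _ n ih =>
    rcases Nat.eq_zero_or_pos n with rfl | hn
    · have : ((0 : ℕ) + 1 : ℝ) ^ k * q ^ 0 * M = M := by simp
      rw [this]
      exact hM
    · -- `n + 1 = (a + 1) + (b + 1)`
      obtain ⟨a, b, hab, ha, hb, hb2⟩ : ∃ a b : ℕ, a + b + 1 = n ∧ a < n ∧ b < n ∧
          (a ≤ b ∧ 3 * (b + 1) ≤ 2 * (n + 1)) := by
        refine ⟨(n - 1) / 2, n - 1 - (n - 1) / 2, ?_, ?_, ?_, ?_, ?_⟩ <;> omega
      have h1 := ih a ha
      have h2 := ih b hb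
      have h3 := dw_cr hw0 hw (pw_sum hf a) (pw_sum hf b) hC h1 h2
      rw [pw_add hf, hab] at h3
      refine dw_mono h3 ?_
      have h4 := pw_l1 hf hq a
      have h5 := pw_l1 hf hq b
      have h6 : ((a : ℝ) + 1) ^ k ≤ ((b : ℝ) + 1) ^ k := by
        have : (a : ℝ) ≤ b := by exact_mod_cast hb2.1
        gcongr
      have h7 : 2 * C * ((b : ℝ) + 1) ^ k ≤ ((n : ℝ) + 1) ^ k := by
        have h8 : (3 / 2 : ℝ) * ((b : ℝ) + 1) ≤ (n : ℝ) + 1 := by
          have : (3 : ℝ) * ((b : ℝ) + 1) ≤ 2 * ((n : ℝ) + 1) := by exact_mod_cast hb2.2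
          linarith
        calc 2 * C * ((b : ℝ) + 1) ^ k ≤ (3 / 2) ^ k * ((b : ℝ) + 1) ^ k := by gcongr
          _ = ((3 / 2 : ℝ) * ((b : ℝ) + 1)) ^ k := (mul_pow _ _ _).symm
          _ ≤ _ := by gcongr
      calc C * (((a : ℝ) + 1) ^ k * q ^ a * M * (∑' x, |pw f b x|) +
            ((b : ℝ) + 1) ^ k * q ^ b * M * ∑' x, |pw f a x|)
          ≤ C * (((b : ℝ) + 1) ^ k * q ^ a * M * q ^ (b + 1) +
            ((b : ℝ) + 1) ^ k * q ^ b * M * q ^ (a + 1)) := by gcongr
        _ = (2 * C * ((b : ℝ) + 1) ^ k) * q ^ (a + b + 1) * M := by ring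
        _ ≤ ((n : ℝ) + 1) ^ k * q ^ n * M := by
            rw [hab]
            gcongr

lemma geo {q : ℝ} (hq0 : 0 ≤ q) (hq1 : q < 1) (k : ℕ) :
    Summable fun n : ℕ => ((n : ℝ) + 1) ^ k * q ^ n := by
  have hn : ‖q‖ < 1 := by rwa [Real.norm_eq_abs, abs_of_nonneg hq0]
  rcases hq0.eq_or_lt with h0 | h0
  · refine summable_of_ne_finset_zero (s := {0}) fun n hn => ?_
    have : n ≠ 0 := by simpa using hn
    rw [← h0, zero_pow this, mul_zero]
  · have h0' : Summable fun n : ℕ => (n : ℝ) ^ k * q ^ n :=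
      summable_pow_mul_geometric_of_norm_lt_one k hn
    have h : Summable fun n : ℕ => ((n + 1 : ℕ) : ℝ) ^ k * q ^ (n + 1) :=
      (summable_nat_add_iff (f := fun n : ℕ => (n : ℝ) ^ k * q ^ n) 1).2 h0'
    have h2 : Summable fun n : ℕ => q⁻¹ * (((n + 1 : ℕ) : ℝ) ^ k * q ^ (n + 1)) := h.mul_left q⁻¹
    refine h2.congr fun n => ?_
    rw [pow_succ q n, Nat.cast_add, Nat.cast_one]
    field_simp

/-- The Neumann series `f + f*f + ...`. -/
noncomputable def neu (f : V d → ℝ) (x : V d) : ℝ := ∑' n, pw f n x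

section neumann

variable {f : V d → ℝ} (hf : Summable f) {q : ℝ} (hq : ∑' x, |f x| ≤ q) (hq1 : q < 1)
include hf hq hq1

lemma neu_dbl : Summable fun a : ℕ × V d => |pw f a.1 a.2| := by
  have hq0 : 0 ≤ q := le_trans (tsum_nonneg fun _ => abs_nonneg _) hq
  rw [summable_prod_of_nonneg (fun a => abs_nonneg _)]
  refine ⟨fun n => (pw_sum hf n).abs, ?_⟩
  refine Summable.of_nonneg_of_le (fun n => tsum_nonneg fun _ => abs_nonneg _)
    (fun n => pw_l1 hf hq n) ?_
  exact (summable_nat_add_iff 1).2 (summable_geometric_of_lt_one hq0 hq1)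

lemma neu_term (x : V d) : Summable fun n => pw f n x := by
  have h : Summable fun a : ℕ × V d => pw f a.1 a.2 := (neu_dbl hf hq hq1).of_abs
  exact h.prod_symm.prod_factor x

lemma neu_sum : Summable (neu f) := by
  have h : Summable fun a : ℕ × V d => pw f a.1 a.2 := (neu_dbl hf hq hq1).of_abs
  exact h.prod_symm.prod

lemma neu_l1 : ∑' x, |neu f x| ≤ q / (1 - q) := by
  have hq0 : 0 ≤ q := le_trans (tsum_nonneg fun _ => abs_nonneg _) hq
  have h := neu_dbl hf hq hq1
  have h1 : ∀ x, |neu f x| ≤ ∑' n, |pw f n x| := by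
    intro x
    exact norm_tsum_le_tsum_norm (neu_term hf hq hq1 x).norm
  calc ∑' x, |neu f x| ≤ ∑' x, ∑' n, |pw f n x| :=
        Summable.tsum_le_tsum h1 (neu_sum hf hq hq1).abs h.prod_symm.prod
    _ = ∑' n, ∑' x, |pw f n x| := by
        have h2 : Summable (Function.uncurry fun (n : ℕ) (x : V d) => |pw f n x|) := h
        exact h2.tsum_comm
    _ ≤ ∑' n : ℕ, q * q ^ n := by
        refine Summable.tsum_le_tsum (fun n => ?_) h.prod
          ((summable_geometric_of_lt_one hq0 hq1).mul_left q)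
        rw [← pow_succ']
        exact pw_l1 hf hq n
    _ = q / (1 - q) := by
        rw [tsum_mul_left, tsum_geometric_of_lt_one hq0 hq1, div_eq_mul_inv]

lemma neu_eq (x : V d) : neu f x = f x + cr f (neu f) x := by
  have h0 : Summable fun n => pw f n x := neu_term hf hq hq1 x
  have h1 : neu f x = pw f 0 x + ∑' n, pw f (n + 1) x := h0.tsum_eq_zero_add
  rw [h1]
  congr 1
  change ∑' n, ∑' y, f y * pw f n (x - y) = ∑' y, f y * ∑' n, pw f n (x - y)
  have e : ∀ y, f y * ∑' n, pw f n (x - y) = ∑' n, f y * pw f n (x - y) :=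
    fun y => tsum_mul_left.symm
  simp_rw [e]
  refine Summable.tsum_comm ?_
  -- summability of `(n, y) ↦ f y * pw f n (x - y)`
  have h2 : Summable fun a : V d × ℕ => (∑' z, |f z|) * |pw f a.2 (x - a.1)| := by
    refine Summable.mul_left _ ?_
    have h3 := ((Equiv.subLeft x).prodCongr (Equiv.refl ℕ)).summable_iff
      (f := fun a : V d × ℕ => |pw f a.2 a.1|)
    exact h3.2 (neu_dbl hf hq hq1).prod_symm
  refine Summable.of_norm_bounded h2 ?_
  rintro ⟨y, n⟩
  simp only [Function.uncurry_apply_pair, norm_mul, Real.norm_eq_abs]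
  exact mul_le_mul_of_nonneg_right (bdd_of_sum hf y) (abs_nonneg _)

lemma neu_dw {w : V d → ℝ} {C : ℝ} (hw0 : ∀ x, 0 ≤ w x)
    (hw : ∀ x y, w (x + y) ≤ C * (w x + w y)) (hC : 0 ≤ C) {k : ℕ} (hk : 2 * C ≤ (3 / 2) ^ k)
    {M : ℝ} (hM : Dw w f M) : Dw w (neu f) ((∑' n : ℕ, ((n : ℝ) + 1) ^ k * q ^ n) * M) := by
  intro x
  have hq0 : 0 ≤ q := le_trans (tsum_nonneg fun _ => abs_nonneg _) hq
  have h1 : |neu f x| ≤ ∑' n, |pw f n x| := by
    exact norm_tsum_le_tsum_norm (neu_term hf hq hq1 x).norm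
  calc |neu f x| * w x ≤ (∑' n, |pw f n x|) * w x := mul_le_mul_of_nonneg_right h1 (hw0 x)
    _ = ∑' n, |pw f n x| * w x := tsum_mul_right.symm
    _ ≤ ∑' n : ℕ, ((n : ℝ) + 1) ^ k * q ^ n * M :=
        Summable.tsum_le_tsum (fun n => dw_pw hw0 hw hC hk hf hq hM n x)
          ((neu_term hf hq hq1 x).abs.mul_right _) ((geo hq0 hq1 k).mul_right M)
    _ = _ := tsum_mul_right

end neumann

/-- The Neumann series, all properties. -/
theorem neumann {f w : V d → ℝ} {C q M : ℝ} {k : ℕ} (hw0 : ∀ x, 0 ≤ w x)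
    (hw : ∀ x y, w (x + y) ≤ C * (w x + w y)) (hC : 0 ≤ C) (hk : 2 * C ≤ (3 / 2) ^ k)
    (hf : Summable f) (hq : ∑' x, |f x| ≤ q) (hq1 : q < 1) (hM : ∀ x, |f x| * w x ≤ M) :
    ∃ N : V d → ℝ, Summable N ∧ (∀ x, N x = f x + cr f N x) ∧ ∑' x, |N x| ≤ q / (1 - q) ∧
      ∀ x, |N x| * w x ≤ (∑' n : ℕ, ((n : ℝ) + 1) ^ k * q ^ n) * M :=
  ⟨neu f, neu_sum hf hq hq1, neu_eq hf hq hq1, neu_l1 hf hq hq1, neu_dw hf hq hq1 hw0 hw hC hk hM⟩

/-- The inverse of `de - K` is unique. -/
theorem inv_unique {K G G' : V d → ℝ} (hK : Summable K) (hG : Summable G) (hG' : Summable G')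
    (h : ∀ x, G x = de x + cr K G x) (h' : ∀ x, G' x = de x + cr K G' x) : G = G' := by
  have e1 : (fun x => G x - cr K G x) = de := by
    funext x
    have := h x
    linarith
  have e2 : (fun x => G' x - cr K G' x) = de := by
    funext x
    have := h' x
    linarith
  have hKG := cr_sum hK hG
  have hKG' := cr_sum hK hG'
  calc G = cr G de := (cr_de G).symm
    _ = cr G (fun x => G' x - cr K G' x) := by rw [e2]
    _ = fun x => cr G G' x - cr G (cr K G') x := cr_sub hG hG' hKG'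
    _ = fun x => cr G' G x - cr G' (cr K G) x := by
        funext x
        rw [cr_comm G G', ← cr_assoc hG hK hG', cr_comm G K, cr_comm (cr K G) G']
    _ = cr G' (fun x => G x - cr K G x) := (cr_sub hG' hG hKG).symm
    _ = cr G' de := by rw [e1]
    _ = G' := cr_de G'

/-- The inverse by a parametrix: if `(de - K) * P = de - E` and `|E|_1 < 1` then the inverse of `de - K` is
`P + P * N`, `N` the Neumann series of `E`. -/
theorem param {K P E N G : V d → ℝ} (hK : Summable K) (hP : Summable P) (hE : Summable E)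
    (hN : Summable N) (hG : Summable G) (h : ∀ x, P x = de x + cr K P x - E x)
    (hNe : ∀ x, N x = E x + cr E N x) (hGe : ∀ x, G x = de x + cr K G x) :
    ∀ x, G x = P x + cr P N x := by
  have hPN := cr_sum hP hN
  have key : G = fun x => P x + cr P N x := by
    refine inv_unique hK hG (hP.add hPN) hGe fun x => ?_
    have e1 : cr K (fun x => P x + cr P N x) = fun x => cr K P x + cr K (cr P N) x :=
      cr_add hK hP hPN
    have e2 : cr K (cr P N) = cr (cr K P) N := (cr_assoc hK hP hN).symm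
    have e3 : cr K P = fun x => P x - (de x - E x) := by
      funext y
      have := h y
      linarith
    have hdE : Summable fun x => de x - E x := de_sum.sub hE
    have e4 : cr (cr K P) N = fun x => cr P N x - (N x - cr E N x) := by
      rw [e3, cr_comm, cr_sub hN hP hdE, cr_sub hN de_sum hE]
      funext y
      rw [cr_comm N P, cr_de, cr_comm N E]
    have e5 : cr K P x = P x - (de x - E x) := congrFun e3 x
    have e6 : cr (cr K P) N x = cr P N x - (N x - cr E N x) := congrFun e4 x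
    rw [e1]
    show P x + cr P N x = de x + (cr K P x + cr K (cr P N) x)
    rw [e2, e6, e5]
    have := hNe x
    linarith
  intro x
  exact congrFun key x

end H84PW
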